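import Pool.Agent.W2helper26.MC.Stm
import Pool.Agent.H620R2.Gauge2.Trans
import Pool.Agent.H620R2.GaugeR.Seq

/-!
# The polynomial hierarchy is in `P` if `MPH` is
-/

set_option autoImplicit false

namespace Pool.Agent.W2helper26.MC

open Pool.Agent.NPC Pool.Agent.H622R2 Pool.Agent.H620R2.Gauge

/-- `P` is closed under short existential quantifiers -/
theorem isP_exists_short {p : ℕ} {A : Oracle} (h : ∀ L, MPH p A L → IsP A L)
    {L : Set (List Bool)} (hL : IsP A L) {β : List Bool → ℕ} (hβ : UPoly β) :
    IsP A {y | ∃ w : List Bool, w.length ≤ β y ∧ pairBits w y ∈ L} := by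
  obtain ⟨V, hV, hVL⟩ := hL
  obtain ⟨q, hq⟩ := Poly.sz_le hβ
  have hqb : ∀ y, β y ≤ (q.comp (Polynomial.C 4 * Polynomial.X + Polynomial.C 1)).eval y.length := by
    intro y
    refine A2.sz_eval_le ?_
    have h1 := length_lt_sz (List.replicate (β y) ())
    rw [List.length_replicate] at h1
    exact h1.le.trans (hq y)
  set Q : Polynomial ℕ := q.comp (Polynomial.C 4 * Polynomial.X + Polynomial.C 1) with hQ
  have h1 : Poly (fun z : List Bool => (unpair z).1) := Poly.fst poly_unpair
  have h2 : Poly (fun z : List Bool => (unpair z).2) := Poly.snd poly_unpair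
  have h11 : Poly (fun z : List Bool => (unpair (unpair z).1).1) := h1.comp h1
  have hg : Poly (fun z : List Bool => pairBits (unpair (unpair z).1).1 (unpair z).2) :=
    poly_pairBits h11 h2
  have hF : IsFP A (fun z => pairBits (V (pairBits (unpair (unpair z).1).1 (unpair z).2)) z) :=
    (hV.precomp hg).pair (IsFP.of_poly Poly.id)
  have hT : Poly (fun v : List Bool =>
      if decide ((unpair (unpair (unpair v).2).1).1.length ≤ β (unpair (unpair v).2).2) &&
        decide ((unpair v).1 = [true]) then [true] else []) := by
    refine Poly.ite ?_ (NPC.Poly.const _) (NPC.Poly.const _)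
    have t1 : Poly (fun v : List Bool => decide
        ((unpair (unpair (unpair v).2).1).1.length ≤ β (unpair (unpair v).2).2)) :=
      Poly.decide_le (Poly.length (h11.comp h2)) (hβ.toPoly.comp (h2.comp h2))
    have t2 : Poly (fun v : List Bool => decide ((unpair v).1 = [true])) :=
      Poly.decide_eq h1 (NPC.Poly.const _)
    exact (Poly.and t1 t2).congr fun v => by simp
  have hL'' : IsP A {z | (unpair (unpair z).1).1.length ≤ β (unpair z).2 ∧
      pairBits (unpair (unpair z).1).1 (unpair z).2 ∈ L} := by
    refine ⟨_, (IsFP.of_poly hT).comp hF, fun z => ?_⟩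
    simp only [unpair_pairBits, Set.mem_ofPred_eq, hVL]
    by_cases c1 : (unpair (unpair z).1).1.length ≤ β (unpair z).2 <;>
      by_cases c2 : V (pairBits (unpair (unpair z).1).1 (unpair z).2) = [true] <;>
      simp [c1, c2]
  have h3 := h _ (MPH.ex (Polynomial.C 2 * Q + Polynomial.C 1) (MPH.base hL''))
  have e : {x : List Bool | ∃ w : List Bool, w.length =
      (Polynomial.C 2 * Q + Polynomial.C 1).eval x.length ∧ pairBits w x ∈
        {z : List Bool | (unpair (unpair z).1).1.length ≤ β (unpair z).2 ∧
          pairBits (unpair (unpair z).1).1 (unpair z).2 ∈ L}} =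
      {y | ∃ w : List Bool, w.length ≤ β y ∧ pairBits w y ∈ L} := by
    ext y
    constructor
    · rintro ⟨w, _, hw⟩
      simp only [Set.mem_ofPred_eq, unpair_pairBits] at hw
      exact ⟨_, hw.1, hw.2⟩
    · rintro ⟨w, hw1, hw2⟩
      refine ⟨pairBits w (List.replicate (2 * (Q.eval y.length - w.length)) false), ?_, ?_⟩
      · rw [length_pairBits, List.length_replicate]
        have := hqb y
        simp only [Polynomial.eval_add, Polynomial.eval_mul, Polynomial.eval_C]
        omega
      · simp only [Set.mem_ofPred_eq, unpair_pairBits]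
        exact ⟨hw1, hw2⟩
  rw [e] at h3
  exact h3

theorem isP_quant {p : ℕ} {A : Oracle} (h : ∀ L, MPH p A L → IsP A L)
    {V : List Bool → List Bool} (hV : IsFP A V) (q : Polynomial ℕ) (k : ℕ) :
    ∀ (j : ℕ) (b : Bool), IsP A {y | Quant (q.eval (U1.inner j y).length) V k b y} := by
  induction k with
  | zero =>
      intro j b
      exact ⟨V, hV, fun x => Iff.rfl⟩
  | succ k ih =>
      have hβ : ∀ j, UPoly (fun y : List Bool => q.eval (U1.inner j y).length) := fun j =>
        UPoly.eval (UPoly.length (U1.poly_inner j)) q
      have hin : ∀ j (w y : List Bool), U1.inner (j + 1) (pairBits w y) = U1.inner j y := by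
        intro j w y
        simp only [U1.inner, unpair_pairBits]
      intro j b
      cases b with
      | true =>
          have h' := isP_exists_short h (ih (j + 1) false) (hβ j)
          have e : {y | Quant (q.eval (U1.inner j y).length) V (k + 1) true y} =
              {y | ∃ w : List Bool, w.length ≤ q.eval (U1.inner j y).length ∧ pairBits w y ∈
                {y | Quant (q.eval (U1.inner (j + 1) y).length) V k false y}} := by
            ext y
            simp only [Set.mem_ofPred_eq, Quant, hin]
          rw [e]
          exact h'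
      | false =>
          have h' := (isP_exists_short h (ih (j + 1) true).compl (hβ j)).compl
          have e : {y | Quant (q.eval (U1.inner j y).length) V (k + 1) false y} =
              {y | ∃ w : List Bool, w.length ≤ q.eval (U1.inner j y).length ∧ pairBits w y ∈
                {y | Quant (q.eval (U1.inner (j + 1) y).length) V k true y}ᶜ}ᶜ := by
            ext y
            simp only [Set.mem_compl_iff, Set.mem_ofPred_eq, Quant, hin, not_exists, not_and,
              not_not]
          rw [e]
          exact h'

theorem ph_le {p : ℕ} {A : Oracle} (h : ∀ L, MPH p A L → IsP A L) {L : Set (List Bool)}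
    (hL : IsPH A L) : IsP A L := by
  obtain ⟨V, q, k, hV, hL⟩ := hL
  have h1 := isP_quant h hV q k 0 true
  have e : {y | Quant (q.eval (U1.inner 0 y).length) V k true y} = L := by
    ext x
    exact (hL x).symm
  rwa [e] at h1

/-- an oracle as in the theorem puts the hierarchy with advice into `P` with advice -/
theorem phpoly_le {p : ℕ} {A : Oracle} (h : ∀ L, MPH p A L → IsP A L) {L : Set (List Bool)}
    (hL : IsPHpoly A L) : WithAdvice (MPH p A) L := by
  obtain ⟨L', a, q, hL', ha, hx⟩ := hL
  exact ⟨L', a, q, MPH.base (ph_le h hL'), ha, hx⟩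

end Pool.Agent.W2helper26.MC
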