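import Pool.Agent.W2helper26.MC.Stm

/-!
# The coding
-/

set_option autoImplicit false

namespace Pool.Agent.W2helper26.MC

open Pool.Agent.NPC Pool.Agent.H620R2.Gauge Pool.Agent.H620R2.Gauge.CC

theorem exists_enum' : ∃ g : ℕ → Alg × Polynomial ℕ × Option ℕ, Function.Surjective g := by
  have h1 := poly_countable
  have : Nonempty Alg := ⟨⟨fun _ => [], const_polyTime [], 0⟩⟩
  exact exists_surjective_nat _

theorem Phi_loc (R : ℕ → Polynomial ℕ) (V : ℕ → Oracle → List Bool → Prop) (B B' : Oracle) :
    ∀ (ℓ : ℕ), (∀ z : List Bool, z.length ≤ ℓ → B z = B' z) →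
      ∀ y : List Bool, y.length ≤ ℓ → Phi R V B y = Phi R V B' y := by
  intro ℓ hB
  have key : ∀ (m : ℕ) (y : List Bool), y.length = m → y.length ≤ ℓ →
      Phi R V B y = Phi R V B' y := by
    intro m
    induction m using Nat.strong_induction_on with
    | _ m ih =>
      intro y hy hl
      by_cases h : ∃ p : ℕ × List Bool, y = code R p.1 p.2
      · have h1 : (fun z : List Bool => if _hz : z.length < y.length then Phi R V B z else false) =
            (fun z => if _hz : z.length < y.length then Phi R V B' z else false) := by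
          funext z
          by_cases hz : z.length < y.length
          · rw [dif_pos hz, dif_pos hz]
            exact ih z.length (by omega) z rfl (by omega)
          · rw [dif_neg hz, dif_neg hz]
        rw [Phi, Phi, dif_pos h, dif_pos h, h1]
      · rw [Phi, Phi, dif_neg h, dif_neg h]
        exact hB y hl
  intro y hy
  exact key _ y rfl hy

/-- The coding. -/
theorem exists_cod (hpath : P_path) (p K : ℕ) : ∃ (R : ℕ → Polynomial ℕ) (Φ : Oracle → Oracle)
    (g : ℕ → Alg × Polynomial ℕ × Option ℕ), Function.Surjective g ∧
    (∀ e n, (n + e + 1) ^ K ≤ (R e).eval n) ∧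
    (∀ B y, (∀ e x, y ≠ code R e x) → Φ B y = B y) ∧
    (∀ (B B' : Oracle) (ℓ : ℕ), (∀ z : List Bool, z.length ≤ ℓ → B z = B' z) →
      ∀ y : List Bool, y.length ≤ ℓ → Φ B y = Φ B' y) ∧
    (∀ B e x, Φ B (code R e x) = true ↔ Val p (g e).1 (g e).2.1 (g e).2.2 (Φ B) x) ∧
    (∀ e (x w π : List Bool), w.length = (g e).2.1.eval x.length →
      Static (g e).1 (pairBits w x) π →
      (∀ l ∈ lits (g e).1 (pairBits w x) π, l.1.length ^ 2 ≤ (code R e x).length) ∧
      w.length + π.length ≤ (code R e x).length) := by
  classical
  obtain ⟨g, hg⟩ := exists_enum'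
  choose b hb using fun e : ℕ => (hpath (g e).1).2.2
  set c : ℕ → Polynomial ℕ := fun e =>
    (b e).comp (Polynomial.C 2 * (g e).2.1 + Polynomial.C 1 + Polynomial.X) + (g e).2.1 with hc
  set R : ℕ → Polynomial ℕ := fun e =>
    (c e + Polynomial.C 1) ^ 2 + (Polynomial.X + Polynomial.C (e + 1)) ^ K with hR
  have hce : ∀ e n, (c e).eval n = (b e).eval (2 * (g e).2.1.eval n + 1 + n) +
      (g e).2.1.eval n := by
    intro e n
    simp only [hc, Polynomial.eval_add, Polynomial.eval_comp, Polynomial.eval_mul,
      Polynomial.eval_C, Polynomial.eval_X]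
  have hRe : ∀ e n, (R e).eval n = ((c e).eval n + 1) ^ 2 + (n + (e + 1)) ^ K := by
    intro e n
    simp only [hR, Polynomial.eval_add, Polynomial.eval_pow, Polynomial.eval_X, Polynomial.eval_C]
  have hlen : ∀ e (x w : List Bool), w.length = (g e).2.1.eval x.length →
      (pairBits w x).length = 2 * (g e).2.1.eval x.length + 1 + x.length := by
    intro e x w hw
    rw [length_pairBits, hw]
  -- the bounds
  have hbd : ∀ e (x w π : List Bool), w.length = (g e).2.1.eval x.length →
      Static (g e).1 (pairBits w x) π →
      (∀ l ∈ lits (g e).1 (pairBits w x) π, l.1.length ≤ (c e).eval x.length) ∧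
      w.length + π.length ≤ (c e).eval x.length := by
    intro e x w π hw hS
    obtain ⟨h1, h2⟩ := hb e _ _ hS
    rw [hlen e x w hw] at h1 h2
    have h3 := hce e x.length
    refine ⟨fun l hl => ?_, by omega⟩
    have h4 := h2 l hl
    omega
  have hcR : ∀ e (x : List Bool), ((c e).eval x.length + 1) ^ 2 < (code R e x).length := by
    intro e x
    have h1 := lt_length_code R e x
    have h2 := hRe e x.length
    omega
  -- locality
  have hloc : ∀ e A A' x, (∀ z : List Bool, z.length < (code R e x).length → A z = A' z) →
      (Val p (g e).1 (g e).2.1 (g e).2.2 A x ↔ Val p (g e).1 (g e).2.1 (g e).2.2 A' x) := by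
    intro e A A' x h
    have key : ∀ w : List Bool, w.length = (g e).2.1.eval x.length →
        ((g e).1.out A (pairBits w x) = some [true] ↔
          (g e).1.out A' (pairBits w x) = some [true]) := by
      intro w hw
      rw [(hpath (g e).1).1 A, (hpath (g e).1).1 A']
      refine exists_congr fun π => and_congr_right fun hS => forall_congr' fun l =>
        forall_congr' fun hl => ?_
      have h1 := (hbd e x w π hw hS).1 l hl
      have h2 := hcR e x
      have h3 : (c e).eval x.length ≤ ((c e).eval x.length + 1) ^ 2 := by nlinarith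
      rw [h l.1 (by omega)]
    unfold Val
    cases (g e).2.2 with
    | none =>
      simp only
      exact exists_congr fun w => and_congr_right fun hw => key w hw
    | some a =>
      simp only
      have h1 : {w : List Bool | w.length = (g e).2.1.eval x.length ∧
          (g e).1.out A (pairBits w x) = some [true]} =
          {w : List Bool | w.length = (g e).2.1.eval x.length ∧
          (g e).1.out A' (pairBits w x) = some [true]} := by
        ext w
        exact and_congr_right fun hw => key w hw
      rw [h1]
  refine ⟨R, Phi R (fun e A x => Val p (g e).1 (g e).2.1 (g e).2.2 A x), g, hg, ?_,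
    fun B y h => Phi_not R _ B y h, fun B B' ℓ h y hy => Phi_loc R _ B B' ℓ h y hy,
    fun B e x => Phi_code R _ B hloc e x, ?_⟩
  · intro e n
    rw [hRe, add_assoc n e 1]
    exact Nat.le_add_left _ _
  · intro e x w π hw hS
    obtain ⟨h1, h2⟩ := hbd e x w π hw hS
    have h3 := hcR e x
    refine ⟨fun l hl => ?_, ?_⟩
    · have h4 := h1 l hl
      have h5 : l.1.length ^ 2 ≤ ((c e).eval x.length + 1) ^ 2 :=
        Nat.pow_le_pow_left (by omega) 2
      omega
    · have h4 : (c e).eval x.length ≤ ((c e).eval x.length + 1) ^ 2 := by nlinarith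
      omega

end Pool.Agent.W2helper26.MC
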