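import Pool.Agent.W2helper26.MC.Low
import Pool.Agent.W2helper52.MC2.Clo
import Pool.Agent.W2helper6.MC.Pp
import Pool.Agent.W2helper6.MC.Ckt
import Pool.Agent.W2helper13.MC.Maj
import Pool.Agent.W2helper11.MC.Comb
import Pool.Agent.W2helper11.MC.Num
import Pool.Agent.W2helper11.MC.Vers
import Pool.Agent.W2helper2.MC.Cnt
import Pool.Agent.W2helper2.MC.Dp
import Pool.Agent.W2helper17.MC.Path
import Pool.Agent.H620R2.Gauge2.V7
import Pool.Agent.H620R2.Gauge2.CoverN

/-!
# The assembly
-/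

set_option autoImplicit false

namespace Pool.Agent.W2helper26.MC

open Filter Pool.Agent.NPC Pool.Agent.H620R2.Gauge Pool.Agent.H620R2.Gauge.CC MeasureTheory

/-- Not a null set. -/
theorem not_null_mc (p : ℕ) [Fact p.Prime] (f : ℕ → ℝ) (ε : ℝ) (hε : 0 < ε)
    (hf : ∀ᶠ N : ℕ in atTop, 2 ^ (Real.logb 2 N) ^ ε < f N) :
    ¬ Null f {A | (∀ L, MPH p A L → IsP A L) ∧ IsPP A (majL A) ∧
      ¬ WithAdvice (MPH p A) (majL A)} := by
  classical
  obtain ⟨K, hK⟩ := exists_nat_gt (max 1 (1 / ε))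
  have hK1 : 1 ≤ K := by
    have h1 : (1 : ℝ) < K := (le_max_left _ _).trans_lt hK
    exact_mod_cast h1.le
  have hK' : 1 < ε * K := by
    have h1 : 1 / ε < K := (le_max_right _ _).trans_lt hK
    rw [div_lt_iff₀ hε] at h1
    linarith
  obtain ⟨R, Φ, g, hg, hR, hΦ, hloc, hval, hbd⟩ :=
    exists_cod Pool.Agent.W2helper17.MC.p_path p K
  have hR' : ∀ e n, n + e + 1 ≤ (R e).eval n := fun e n =>
    (Nat.le_self_pow (by omega) _).trans (hR e n)
  have hsp := sparse R hR hε hK'
  obtain ⟨N₀, hN₀⟩ := Filter.eventually_atTop.1 (hf.and hsp)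
  set c : ℝ := ∑ i ∈ Finset.range N₀, |(i : ℝ) - f i| with hcd
  have hc0 : 0 ≤ c := Finset.sum_nonneg fun _ _ => abs_nonneg _
  set G : Set Oracle := {B | ∀ θ : Alg × Polynomial ℕ, B ∉ Bad Φ θ} with hG
  have hcount := poly_countable
  have hGc : ranO Gᶜ = 0 := by
    have h1 : Gᶜ ⊆ ⋃ θ : Alg × Polynomial ℕ, Bad Φ θ := by
      intro B hB
      simp only [hG, Set.mem_compl_iff, Set.mem_ofPred_eq, not_forall, not_not] at hB
      obtain ⟨θ, hθ⟩ := hB
      exact Set.mem_iUnion.2 ⟨θ, hθ⟩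
    refine measure_mono_null h1 (measure_iUnion_null fun θ => ?_)
    exact null_bad Pool.Agent.W2helper17.MC.p_path Pool.Agent.W2helper6.MC.p_ckt
      Pool.Agent.W2helper2.MC.p_dp Pool.Agent.W2helper2.MC.p_cnt Pool.Agent.W2helper11.MC.p_vers
      Pool.Agent.W2helper11.MC.p_comb Pool.Agent.W2helper11.MC.p_num
      Pool.Agent.W2helper13.MC.p_maj hR' hΦ hloc hval hbd θ
  have hGpos : 0 < ranO G := by
    rw [pos_iff_ne_zero]
    intro h0
    have h1 : ranO (G ∪ Gᶜ) ≤ ranO G + ranO Gᶜ := measure_union_le _ _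
    rw [Set.union_compl_self, measure_univ, h0, hGc, add_zero] at h1
    exact absurd h1 (by norm_num)
  refine not_null_of f G hGpos Φ {y | ∃ e x, y = code R e x} ?_ c ?_ _ ?_
  · intro B y hy
    apply hΦ
    intro e x he
    exact hy ⟨e, x, he⟩
  · intro N
    rcases Nat.lt_or_ge N N₀ with hN | hN
    · have h4 : (((Finset.range N).filter
          (fun i => str i ∈ {y | ∃ e x, y = code R e x})).card : ℝ) ≤ N := by
        have := Finset.card_filter_le (Finset.range N)
          (fun i => str i ∈ {y | ∃ e x, y = code R e x})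
        rw [Finset.card_range] at this
        exact_mod_cast this
      have h5 : |(N : ℝ) - f N| ≤ c :=
        Finset.single_le_sum (f := fun i : ℕ => |(i : ℝ) - f i|) (fun _ _ => abs_nonneg _)
          (Finset.mem_range.2 hN)
      have h6 := le_abs_self ((N : ℝ) - f N)
      linarith
    · obtain ⟨h1, h2⟩ := hN₀ N hN
      have h3 : (((Finset.range N).filter
          (fun i => str i ∈ {y | ∃ e x, y = code R e x})).card : ℝ) ≤
          2 ^ (Real.logb 2 N) ^ ε := by
        refine le_trans (le_of_eq ?_) h2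
        congr 2
      linarith
  · intro B hB
    have hcl : ∀ L, MPH p (Φ B) L → IsP (Φ B) L :=
      Pool.Agent.W2helper52.MC2.p_clo p R g hg (Φ B) (fun e x => hval B e x)
    refine ⟨hcl, Pool.Agent.W2helper6.MC.p_pp _, ?_⟩
    rintro ⟨L', h, q, hL', hh, hx⟩
    obtain ⟨V, ⟨M, hM⟩, hV⟩ := hcl L' hL'
    refine hB (M, q) fun n => ⟨h n, hh n, fun x hxn => ?_⟩
    rw [hx x, hV, hM, hxn]
    simp

/-- closure under the quantifiers gives the complement of the hit language -/
theorem hit_compl {p : ℕ} {A : Oracle} (h : ∀ L, MPH p A L → IsP A L) :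
    IsP A (hitLang A)ᶜ := by
  have h1 : IsP A {y | V7.H (y, (V7.Q y).map A) = [true]} :=
    ⟨_, IsFP.tt V7.poly_Q V7.poly_H, fun x => Iff.rfl⟩
  have h2 : hitLang A = {x | ∃ w : List Bool, w.length = (Polynomial.X : Polynomial ℕ).eval x.length ∧
      pairBits w x ∈ {y | V7.H (y, (V7.Q y).map A) = [true]}} := by
    ext x
    have key : ∀ w : List Bool, V7.H (pairBits w x, (V7.Q (pairBits w x)).map A) = [true] ↔
        (w.length = x.length ∧ ∀ i < x.length, A (x ++ w ++ List.replicate i true) = true) := by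
      intro w
      unfold V7.H V7.Q
      simp only [unpair_pairBits, List.cons.injEq, and_true, Bool.and_eq_true, decide_eq_true_eq,
        List.all_eq_true, List.mem_map, List.mem_range]
      constructor
      · rintro ⟨h1, h2⟩
        refine ⟨h1, fun i hi => ?_⟩
        apply h2
        refine ⟨_, ⟨i, hi, rfl⟩, ?_⟩
        rw [min_eq_left hi.le]
      · rintro ⟨h1, h2⟩
        refine ⟨h1, ?_⟩
        rintro b ⟨_, ⟨i, hi, rfl⟩, rfl⟩
        rw [min_eq_left hi.le]
        exact h2 i hi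
    constructor
    · rintro ⟨j, hj, h⟩
      refine ⟨bitsOf x.length j, ?_, ?_⟩
      · rw [length_bitsOf, Polynomial.eval_X]
      · show V7.H _ = [true]
        rw [key]
        exact ⟨length_bitsOf _ _, h⟩
    · rintro ⟨w, _, hw⟩
      have hw' := (key w).1 hw
      obtain ⟨j, hj, h⟩ := exists_bitsOf w
      rw [hw'.1] at hj h
      refine ⟨j, hj, fun i hi => ?_⟩
      unfold wit
      rw [h]
      exact hw'.2 i hi
  rw [h2]
  exact h _ (MPH.compl (MPH.ex _ (MPH.base h1)))

end Pool.Agent.W2helper26.MC
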