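import Pool.Agent.W2helper26.MC.Cod
import Pool.Agent.W2helper26.DT.EVT
import Pool.Agent.W2helper86.PL.Event

/-!
# The circuits which compute the answers of an algorithm from the free bits
-/

set_option autoImplicit false

namespace Pool.Agent.W2helper26.MC

open Finset Pool.Agent.NPC Pool.Agent.H620R2.Gauge Pool.Agent.H620R2.Gauge.CC
open Pool.Agent.W2helper86.MD
open Pool.Agent.W2helper26.DT (inp length_inp inp_inj inp_head)

/-! ### Levels -/

/-- the level of a length -/
noncomputable def lev (b ℓ : ℕ) : ℕ := sInf {k | ℓ < b ^ (2 ^ k)}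

theorem lev_nonempty {b : ℕ} (hb : 2 ≤ b) (ℓ : ℕ) : {k | ℓ < b ^ (2 ^ k)}.Nonempty := by
  refine ⟨ℓ, ?_⟩
  show ℓ < b ^ (2 ^ ℓ)
  have h1 : ℓ < 2 ^ ℓ := Nat.lt_two_pow_self
  have h2 : 2 ^ ℓ < b ^ (2 ^ ℓ) := Nat.lt_pow_self (by omega)
  omega

theorem lt_lev {b : ℕ} (hb : 2 ≤ b) (ℓ : ℕ) : ℓ < b ^ (2 ^ lev b ℓ) :=
  Nat.sInf_mem (lev_nonempty hb ℓ)

theorem lev_le {b ℓ k : ℕ} (h : ℓ < b ^ (2 ^ k)) : lev b ℓ ≤ k := Nat.sInf_le h

theorem lev_mono {b : ℕ} (hb : 2 ≤ b) {ℓ ℓ' : ℕ} (h : ℓ ≤ ℓ') : lev b ℓ ≤ lev b ℓ' :=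
  lev_le (lt_of_le_of_lt h (lt_lev hb ℓ'))

theorem lev_lt {b : ℕ} (hb : 2 ≤ b) {q ℓ : ℕ} (h : q ^ 2 ≤ ℓ) (hℓ : b ≤ ℓ) :
    lev b q < lev b ℓ := by
  have h1 := lt_lev hb ℓ
  obtain ⟨k, hk⟩ : ∃ k, lev b ℓ = k + 1 := by
    rcases Nat.eq_zero_or_pos (lev b ℓ) with h0 | h0
    · rw [h0, pow_zero, pow_one] at h1
      omega
    · exact ⟨lev b ℓ - 1, by omega⟩
  rw [hk] at h1 ⊢
  refine Nat.lt_succ_of_le (lev_le ?_)
  have h2 : q ^ 2 < (b ^ (2 ^ k)) ^ 2 := by
    rw [← pow_mul, ← pow_succ]
    omega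
  exact lt_of_pow_lt_pow_left' 2 h2

/-! ### The circuits -/

section

variable {p : ℕ} {R : ℕ → Polynomial ℕ} {Φ : Oracle → Oracle}
  {g : ℕ → Alg × Polynomial ℕ × Option ℕ}

/-- the position of a free bit -/
def pos (n : ℕ) {M k : ℕ} (i : Fin M × Fin (2 * k + 1)) : List Bool := inp n i.1 ++ bitsOf n i.2

theorem length_pos (n : ℕ) {M k : ℕ} (i : Fin M × Fin (2 * k + 1)) :
    (pos n i).length = 2 * n := by
  unfold pos
  rw [List.length_append, length_inp, length_bitsOf]
  omega

theorem pos_inj {n u k M : ℕ} (hn : u + 2 ≤ n) (hM : M ≤ 2 ^ u) (hk : 2 * k + 1 ≤ 2 ^ n)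
    {i j : Fin M × Fin (2 * k + 1)} (h : pos n i = pos n j) : i = j := by
  unfold pos at h
  obtain ⟨h1, h2⟩ := List.append_inj h (by rw [length_inp, length_inp])
  have h3 := inp_inj hn (lt_of_lt_of_le i.1.2 hM) (lt_of_lt_of_le j.1.2 hM) h1
  have h4 := bitsOf_inj (lt_of_lt_of_le i.2.2 hk) (lt_of_lt_of_le j.2.2 hk) h2
  exact Prod.ext (Fin.ext h3) (Fin.ext h4)

theorem pos_not_code (hR : ∀ e n, n + e + 1 ≤ (R e).eval n) {n M k : ℕ} (hn : 2 ≤ n)
    (i : Fin M × Fin (2 * k + 1)) (e : ℕ) (x : List Bool) : pos n i ≠ code R e x := by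
  intro h
  obtain ⟨l, hl⟩ := inp_head (j := (i.1 : ℕ)) hn
  unfold pos at h
  rw [hl] at h
  unfold code at h
  cases e with
  | zero =>
    have h1 := hR 0 x.length
    obtain ⟨m, hm⟩ : ∃ m, (R 0).eval x.length = m + 1 := ⟨(R 0).eval x.length - 1, by omega⟩
    rw [hm] at h
    simp [List.replicate_succ] at h
  | succ e => simp [List.replicate_succ] at h

/-- the nodes: short strings and inputs -/
abbrev YY (S : Finset (List Bool)) (M : ℕ) : Type := {y : List Bool // y ∈ S} ⊕ Fin M

open Classical in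
/-- the node of a string -/
noncomputable def embY (S : Finset (List Bool)) (h0 : [] ∈ S) (M : ℕ) (y : List Bool) : YY S M :=
  if hy : y ∈ S then Sum.inl ⟨y, hy⟩ else Sum.inl ⟨[], h0⟩

/-- the level of a node -/
noncomputable def depY (S : Finset (List Bool)) (M b Q : ℕ) : YY S M → ℕ
  | Sum.inl y => lev b (min y.1.length Q)
  | Sum.inr _ => lev b Q + 1

open Classical in
/-- the value of a node -/
noncomputable def valY (S : Finset (List Bool)) (M : ℕ) (N : Alg) (h : List Bool) (n : ℕ)
    {X : Type} (G : X → Oracle) : YY S M → X → Bool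
  | Sum.inl y, x => G x y.1
  | Sum.inr i, x => decide (N.out (G x) (pairBits (inp n i) h) = some [true])

open Classical in
/-- the terms of a node -/
noncomputable def JY (R : ℕ → Polynomial ℕ) (g : ℕ → Alg × Polynomial ℕ × Option ℕ)
    (S : Finset (List Bool)) (M Q : ℕ) (N : Alg) (h : List Bool) (n : ℕ) :
    YY S M → Finset (List Bool × List Bool)
  | Sum.inl y => (S ×ˢ S).filter fun j => y.1.length ≤ Q ∧ ∃ (e : ℕ) (x : List Bool),
      y.1 = code R e x ∧ j.1.length = (g e).2.1.eval x.length ∧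
      Static (g e).1 (pairBits j.1 x) j.2
  | Sum.inr i => (S ×ˢ S).filter fun j => j.1 = [] ∧ Static N (pairBits (inp n i) h) j.2

open Classical in
/-- the literals of a term -/
noncomputable def tY (R : ℕ → Polynomial ℕ) (g : ℕ → Alg × Polynomial ℕ × Option ℕ)
    (S : Finset (List Bool)) (h0 : [] ∈ S) (M : ℕ) (N : Alg) (h : List Bool) (n : ℕ) :
    YY S M → List Bool × List Bool → Finset (YY S M × Bool)
  | Sum.inl y, j => if hy : ∃ ex : ℕ × List Bool, y.1 = code R ex.1 ex.2 then
      (lits (g hy.choose.1).1 (pairBits j.1 hy.choose.2) j.2).image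
        (fun l => (embY S h0 M l.1, l.2)) else ∅
  | Sum.inr i, j => (lits N (pairBits (inp n i) h) j.2).image (fun l => (embY S h0 M l.1, l.2))

theorem forall_image {S : Finset (List Bool)} {h0 : [] ∈ S} {M Q : ℕ} {N : Alg}
    {h : List Bool} {n : ℕ} {X : Type} {G : X → Oracle}
    (hS : ∀ y : List Bool, y.length ≤ Q → y ∈ S) (Λ : Finset (List Bool × Bool))
    (hΛ : ∀ l ∈ Λ, l.1.length ≤ Q) (x : X) [DecidableEq (YY S M × Bool)] :
    (∀ l ∈ Λ.image (fun l => (embY S h0 M l.1, l.2)), valY S M N h n G l.1 x = l.2) ↔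
      ∀ l ∈ Λ, G x l.1 = l.2 := by
  rw [Finset.forall_mem_image]
  refine forall_congr' fun l => forall_congr' fun hl => ?_
  have h1 : l.1 ∈ S := hS _ (hΛ l hl)
  simp only [embY, dif_pos h1, valY]

theorem dep_embY {S : Finset (List Bool)} {h0 : [] ∈ S} {M Q b : ℕ}
    (hS : ∀ y : List Bool, y.length ≤ Q → y ∈ S) {y : List Bool} (hy : y.length ≤ Q) :
    depY S M b Q (embY S h0 M y) = lev b y.length := by
  have h1 : y ∈ S := hS _ hy
  simp only [embY, dif_pos h1, depY, min_eq_left hy]

open Classical in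
theorem card_JY {R : ℕ → Polynomial ℕ} {g : ℕ → Alg × Polynomial ℕ × Option ℕ}
    {S : Finset (List Bool)} {M Q : ℕ} {N : Alg} {h : List Bool} {n : ℕ} (v : YY S M) :
    (JY R g S M Q N h n v).card ≤ S.card * S.card := by
  rw [← Finset.card_product]
  cases v with
  | inl y =>
    simp only [JY]
    exact Finset.card_filter_le _ _
  | inr i =>
    simp only [JY]
    exact Finset.card_filter_le _ _

open Classical in
/-- The number of settings of the free bits for which the algorithm is right is small. -/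
theorem inst (hpath : P_path) (hckt : P_ckt)
    (hcomb : ∀ (p k m D ℓ s : ℕ) [Fact p.Prime] (C : Ckt p (Fin (8 * m) × Fin (2 * k + 1)))
      (o : Fin (8 * m) → C.Node), Nat.card C.Node ≤ s → 1 ≤ s → (∀ i, C.depth (o i) ≤ D) → 1 ≤ ℓ →
      s * 2 ^ m ≤ p ^ ℓ → 4096 * ((ℓ * (p - 1)) ^ D) ^ 2 ≤ 2 * k + 1 →
      (univ.filter (fun x : Fin (8 * m) × Fin (2 * k + 1) → Bool =>
        ∀ i, C.val (o i) x = majF k (fun a => x (i, a)))).card * 2 ^ m ≤
      2 * 2 ^ (8 * m * (2 * k + 1)))
    (hmaj : P_maj) [Fact p.Prime]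
    (hR : ∀ e n, n + e + 1 ≤ (R e).eval n)
    (hΦ : ∀ B y, (∀ e x, y ≠ code R e x) → Φ B y = B y)
    (hloc : ∀ (B B' : Oracle) (ℓ : ℕ), (∀ z : List Bool, z.length ≤ ℓ → B z = B' z) →
      ∀ y : List Bool, y.length ≤ ℓ → Φ B y = Φ B' y)
    (hval : ∀ B e x, Φ B (code R e x) = true ↔ Val p (g e).1 (g e).2.1 (g e).2.2 (Φ B) x)
    (hbd : ∀ e (x w π : List Bool), w.length = (g e).2.1.eval x.length →
      Static (g e).1 (pairBits w x) π →
      (∀ l ∈ lits (g e).1 (pairBits w x) π, l.1.length ^ 2 ≤ (code R e x).length) ∧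
      w.length + π.length ≤ (code R e x).length)
    (M : Alg) (h : List Bool) {n m k Q D ℓ : ℕ} (hn : 2 ≤ n) (hk : 2 * k + 1 = 2 ^ n - 1)
    (hQ : ∀ i : Fin (8 * m), ∀ π, Static M (pairBits (inp n i) h) π → π.length ≤ Q ∧
      ∀ l ∈ lits M (pairBits (inp n i) h) π, l.1.length ≤ Q)
    (hm : 8 * m ≤ 2 ^ n) (hQn : n ≤ Q)
    (hD : 2 * (lev (2 * n) Q + 1) ≤ D)
    (hℓ : 2 ^ (3 * Q + 6) * 2 ^ m ≤ p ^ ℓ) (hℓ1 : 1 ≤ ℓ)
    (hbig : 4096 * ((ℓ * (p - 1)) ^ D) ^ 2 ≤ 2 * k + 1)
    (F : (Fin (8 * m) × Fin (2 * k + 1) → Bool) → Oracle)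
    (hF1 : ∀ X i, F X (pos n i) = X i)
    (hF2 : ∀ X X' y, (∀ i : Fin (8 * m) × Fin (2 * k + 1), y ≠ pos n i) → F X y = F X' y) :
    (univ.filter (fun X : Fin (8 * m) × Fin (2 * k + 1) → Bool => ∀ i : Fin (8 * m),
      (inp n i ∈ majL (Φ (F X)) ↔ M.out (Φ (F X)) (pairBits (inp n i) h) = some [true]))).card *
      2 ^ m ≤ 2 * 2 ^ (8 * m * (2 * k + 1)) := by
  have hp := (Fact.out : p.Prime)
  -- the short strings
  obtain ⟨S, hS1, hS2, hS3⟩ : ∃ S : Finset (List Bool), S.card ≤ 2 ^ (Q + 1) ∧
      (∀ y : List Bool, y.length ≤ Q → y ∈ S) ∧ ∀ y ∈ S, y.length ≤ Q := by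
    obtain ⟨S, h1, h2⟩ := Pool.Agent.W2helper86.PL.Ev.exists_short Q
    refine ⟨S.filter (fun y => y.length ≤ Q), (Finset.card_filter_le _ _).trans h1,
      fun y hy => Finset.mem_filter.2 ⟨h2 y hy, hy⟩, fun y hy => (Finset.mem_filter.1 hy).2⟩
  have h0 : ([] : List Bool) ∈ S := hS2 _ (by simp)
  -- short strings do not depend on the free bits
  have hshort : ∀ X X' (y : List Bool), y.length < 2 * n → Φ (F X) y = Φ (F X') y := by
    intro X X' y hy
    refine hloc _ _ (2 * n - 1) (fun z hz => hF2 X X' z fun i hi => ?_) y (by omega)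
    rw [hi, length_pos] at hz
    omega
  obtain ⟨C, o, hC1, hC2, hC3⟩ := hckt p (Fin (8 * m) × Fin (2 * k + 1)) (YY S (8 * m))
    (List Bool × List Bool) (depY S (8 * m) (2 * n) Q)
    (valY S (8 * m) M h n (fun X => Φ (F X)))
    (JY R g S (8 * m) Q M h n) (tY R g S h0 (8 * m) M h n) (by
      intro v
      cases v with
      | inl y =>
        by_cases hc : ∃ ex : ℕ × List Bool, y.1 = code R ex.1 ex.2
        · -- a code string
          by_cases hlen : y.1.length < 2 * n
          · left
            exact ⟨∅, by simp, fun X X' _ => hshort X X' y.1 hlen⟩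
          have hlQ : y.1.length ≤ Q := hS3 _ y.2
          have hc' := hc.choose_spec
          set e := hc.choose.1 with he
          set x := hc.choose.2 with hx
          have hJ : ∀ j : List Bool × List Bool, j ∈ JY R g S (8 * m) Q M h n (Sum.inl y) ↔
              j.1.length = (g e).2.1.eval x.length ∧ Static (g e).1 (pairBits j.1 x) j.2 := by
            intro j
            simp only [JY, Finset.mem_filter, Finset.mem_product]
            constructor
            · rintro ⟨-, -, e', x', h1, h2, h3⟩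
              rw [hc'] at h1
              obtain ⟨rfl, rfl⟩ := code_inj R h1
              exact ⟨h2, h3⟩
            · rintro ⟨h1, h2⟩
              have h3 := (hbd e x j.1 j.2 h1 h2).2
              rw [← hc'] at h3
              exact ⟨⟨hS2 _ (by omega), hS2 _ (by omega)⟩, hlQ, e, x, hc', h1, h2⟩
          have ht : ∀ j, tY R g S h0 (8 * m) M h n (Sum.inl y) j =
              (lits (g e).1 (pairBits j.1 x) j.2).image
                (fun l => (embY S h0 (8 * m) l.1, l.2)) := by
            intro j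
            simp only [tY, dif_pos hc]
            rfl
          have hlQ' : ∀ j ∈ JY R g S (8 * m) Q M h n (Sum.inl y),
              ∀ l ∈ lits (g e).1 (pairBits j.1 x) j.2, l.1.length ^ 2 ≤ y.1.length ∧
                l.1.length ≤ Q := by
            intro j hj l hl
            obtain ⟨h1, h2⟩ := (hJ j).1 hj
            have h3 := (hbd e x j.1 j.2 h1 h2).1 l hl
            rw [← hc'] at h3
            refine ⟨h3, ?_⟩
            nlinarith
          have hsat : ∀ j ∈ JY R g S (8 * m) Q M h n (Sum.inl y), ∀ X,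
              (∀ l ∈ tY R g S h0 (8 * m) M h n (Sum.inl y) j,
                valY S (8 * m) M h n (fun X => Φ (F X)) l.1 X = l.2) ↔
              ∀ l ∈ lits (g e).1 (pairBits j.1 x) j.2, Φ (F X) l.1 = l.2 := by
            intro j hj X
            rw [ht j]
            exact forall_image hS2 _ (fun l hl => (hlQ' j hj l hl).2) X
          have hyv : ∀ X, valY S (8 * m) M h n (fun X => Φ (F X)) (Sum.inl y) X = true ↔
              Val p (g e).1 (g e).2.1 (g e).2.2 (Φ (F X)) x := by
            intro X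
            rw [← hval]
            show Φ (F X) y.1 = true ↔ _
            rw [← hc']
          have hdep : ∀ j ∈ JY R g S (8 * m) Q M h n (Sum.inl y),
              ∀ l ∈ tY R g S h0 (8 * m) M h n (Sum.inl y) j,
              depY S (8 * m) (2 * n) Q l.1 < depY S (8 * m) (2 * n) Q (Sum.inl y) := by
            intro j hj l hl
            rw [ht j, Finset.mem_image] at hl
            obtain ⟨l', hl', rfl⟩ := hl
            obtain ⟨h1, h2⟩ := hlQ' j hj l' hl'
            rw [dep_embY hS2 h2]
            simp only [depY, min_eq_left hlQ]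
            exact lev_lt (by omega) h1 (by omega)
          -- the number of accepted strings
          have hacc : ∀ X (w : List Bool), w.length = (g e).2.1.eval x.length →
              ((g e).1.out (Φ (F X)) (pairBits w x) = some [true] ↔
                ∃ π, Static (g e).1 (pairBits w x) π ∧
                  ∀ l ∈ lits (g e).1 (pairBits w x) π, Φ (F X) l.1 = l.2) :=
            fun X w _ => (hpath (g e).1).1 _ _
          cases hκ : (g e).2.2 with
          | none =>
            right
            refine ⟨hdep, Or.inl fun X => ?_⟩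
            rw [hyv X]
            simp only [Val, hκ]
            constructor
            · rintro ⟨w, hw, h1⟩
              obtain ⟨π, h2, h3⟩ := (hacc X w hw).1 h1
              have hj := (hJ (w, π)).2 ⟨hw, h2⟩
              exact ⟨(w, π), hj, (hsat _ hj X).2 h3⟩
            · rintro ⟨j, hj, h1⟩
              obtain ⟨h2, h3⟩ := (hJ j).1 hj
              exact ⟨j.1, h2, (hacc X j.1 h2).2 ⟨j.2, h3, (hsat j hj X).1 h1⟩⟩
          | some a =>
            have hcard : ∀ X, {w : List Bool | w.length = (g e).2.1.eval x.length ∧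
                (g e).1.out (Φ (F X)) (pairBits w x) = some [true]}.ncard =
                ((JY R g S (8 * m) Q M h n (Sum.inl y)).filter (fun j =>
                  ∀ l ∈ tY R g S h0 (8 * m) M h n (Sum.inl y) j,
                    valY S (8 * m) M h n (fun X => Φ (F X)) l.1 X = l.2)).card := by
              intro X
              rw [← Set.ncard_coe_finset]
              symm
              refine Set.ncard_congr (fun j _ => j.1) ?_ ?_ ?_
              · intro j hj
                rw [Finset.mem_coe, Finset.mem_filter] at hj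
                obtain ⟨h2, h3⟩ := (hJ j).1 hj.1
                exact ⟨h2, (hacc X j.1 h2).2 ⟨j.2, h3, (hsat j hj.1 X).1 hj.2⟩⟩
              · intro j j' hj hj' hjj
                rw [Finset.mem_coe, Finset.mem_filter] at hj hj'
                obtain ⟨h2, h3⟩ := (hJ j).1 hj.1
                obtain ⟨h2', h3'⟩ := (hJ j').1 hj'.1
                have h4 := (hsat j hj.1 X).1 hj.2
                have h5 := (hsat j' hj'.1 X).1 hj'.2
                rw [← hjj] at h3' h5
                exact Prod.ext hjj ((hpath (g e).1).2.1 _ _ _ _ h3 h4 h3' h5)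
              · rintro w ⟨hw, h1⟩
                obtain ⟨π, h2, h3⟩ := (hacc X w hw).1 h1
                have hj := (hJ (w, π)).2 ⟨hw, h2⟩
                refine ⟨(w, π), ?_, rfl⟩
                rw [Finset.mem_coe, Finset.mem_filter]
                exact ⟨hj, (hsat _ hj X).2 h3⟩
            by_cases ha : a < p
            · right
              refine ⟨hdep, Or.inr ⟨(a : ZMod p), fun X => ?_⟩⟩
              rw [hyv X]
              simp only [Val, hκ]
              rw [hcard X, ZMod.natCast_eq_natCast_iff', Nat.mod_eq_of_lt ha]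
            · left
              refine ⟨∅, by simp, fun X X' _ => ?_⟩
              have hf : ∀ X, valY S (8 * m) M h n (fun X => Φ (F X)) (Sum.inl y) X = false := by
                intro X
                rw [Bool.eq_false_iff]
                intro h1
                rw [hyv X] at h1
                simp only [Val, hκ] at h1
                have h2 := Nat.mod_lt ({w : List Bool | w.length = (g e).2.1.eval x.length ∧
                  (g e).1.out (Φ (F X)) (pairBits w x) = some [true]}.ncard) hp.pos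
                omega
              rw [hf X, hf X']
        · -- not a code string
          left
          have h1 : ∀ X, valY S (8 * m) M h n (fun X => Φ (F X)) (Sum.inl y) X = F X y.1 := by
            intro X
            exact hΦ _ _ fun e x he => hc ⟨(e, x), he⟩
          by_cases hpos : ∃ i : Fin (8 * m) × Fin (2 * k + 1), y.1 = pos n i
          · obtain ⟨i, hi⟩ := hpos
            refine ⟨{i}, by simp, fun X X' hX => ?_⟩
            rw [h1, h1, hi, hF1, hF1]
            exact hX i (by simp)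
          · refine ⟨∅, by simp, fun X X' _ => ?_⟩
            rw [h1, h1]
            exact hF2 X X' _ fun i hi => hpos ⟨i, hi⟩
      | inr i =>
        right
        have hJ : ∀ j : List Bool × List Bool, j ∈ JY R g S (8 * m) Q M h n (Sum.inr i) ↔
            j.1 = [] ∧ Static M (pairBits (inp n i) h) j.2 := by
          intro j
          simp only [JY, Finset.mem_filter, Finset.mem_product]
          constructor
          · rintro ⟨-, h1, h2⟩
            exact ⟨h1, h2⟩
          · rintro ⟨h1, h2⟩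
            refine ⟨⟨?_, hS2 _ (hQ i _ h2).1⟩, h1, h2⟩
            rw [h1]
            exact h0
        have hsat : ∀ j ∈ JY R g S (8 * m) Q M h n (Sum.inr i), ∀ X,
            (∀ l ∈ tY R g S h0 (8 * m) M h n (Sum.inr i) j,
              valY S (8 * m) M h n (fun X => Φ (F X)) l.1 X = l.2) ↔
            ∀ l ∈ lits M (pairBits (inp n i) h) j.2, Φ (F X) l.1 = l.2 := by
          intro j hj X
          exact forall_image hS2 _ (fun l hl => (hQ i _ ((hJ j).1 hj).2).2 l hl) X
        refine ⟨?_, Or.inl fun X => ?_⟩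
        · intro j hj l hl
          simp only [tY, Finset.mem_image] at hl
          obtain ⟨l', hl', rfl⟩ := hl
          have h2 := (hQ i _ ((hJ j).1 hj).2).2 l' hl'
          rw [dep_embY hS2 h2]
          simp only [depY]
          exact Nat.lt_succ_of_le (lev_mono (by omega) h2)
        · show decide (M.out (Φ (F X)) (pairBits (inp n i) h) = some [true]) = true ↔ _
          rw [decide_eq_true_iff, (hpath M).1]
          constructor
          · rintro ⟨π, h1, h2⟩
            have hj := (hJ ([], π)).2 ⟨rfl, h1⟩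
            exact ⟨([], π), hj, (hsat _ hj X).2 h2⟩
          · rintro ⟨j, hj, h1⟩
            exact ⟨j.2, ((hJ j).1 hj).2, (hsat j hj X).1 h1⟩)
  -- the estimate
  have hcard : Nat.card C.Node ≤ 2 ^ (3 * Q + 6) := by
    have h1 : Fintype.card (YY S (8 * m)) ≤ 2 ^ (Q + 2) := by
      rw [Fintype.card_sum, Fintype.card_coe, Fintype.card_fin]
      have h2 : 2 ^ n ≤ 2 ^ Q := Nat.pow_le_pow_right (by norm_num) hQn
      have h3 : 2 ^ (Q + 2) = 2 * 2 ^ (Q + 1) := by ring
      have h4 : 2 ^ (Q + 1) = 2 * 2 ^ Q := by ring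
      omega
    have h2 : ∑ v, (JY R g S (8 * m) Q M h n v).card ≤
        Fintype.card (YY S (8 * m)) * 2 ^ (2 * Q + 2) := by
      refine (Finset.sum_le_sum fun v _ => (card_JY v).trans (Nat.mul_le_mul hS1 hS1)).trans ?_
      rw [Finset.sum_const, Finset.card_univ, smul_eq_mul, ← pow_add]
      refine Nat.mul_le_mul_left _ (Nat.pow_le_pow_right (by norm_num) (by omega))
    have h3 : Fintype.card (YY S (8 * m)) * 2 ^ (2 * Q + 2) ≤ 2 ^ (3 * Q + 5) := by
      calc Fintype.card (YY S (8 * m)) * 2 ^ (2 * Q + 2) ≤ 2 ^ (Q + 2) * 2 ^ (2 * Q + 2) :=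
            Nat.mul_le_mul_right _ h1
        _ = 2 ^ (3 * Q + 4) := by rw [← pow_add]; congr 1; ring
        _ ≤ 2 ^ (3 * Q + 5) := Nat.pow_le_pow_right (by norm_num) (by omega)
    have h4 : 2 ^ (Q + 2) ≤ 2 ^ (3 * Q + 5) := Nat.pow_le_pow_right (by norm_num) (by omega)
    have h5 : 2 ^ (3 * Q + 6) = 2 * 2 ^ (3 * Q + 5) := by ring
    omega
  refine le_trans (Nat.mul_le_mul_right _ (Finset.card_le_card ?_))
    (hcomb p k m D ℓ (2 ^ (3 * Q + 6)) C (fun i => o (Sum.inr i)) hcard Nat.one_le_two_pow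
      (fun i => (hC2 _).trans hD) hℓ1 hℓ hbig)
  intro X hX
  rw [Finset.mem_filter] at hX ⊢
  refine ⟨Finset.mem_univ _, fun i => ?_⟩
  have h1 := hX.2 i
  have h2 := hmaj (Φ (F X)) (inp n i) n k (length_inp _ _) (by omega) hk
  have h3 : (fun a : Fin (2 * k + 1) => Φ (F X) (inp n i ++ bitsOf n a)) = fun a => X (i, a) := by
    funext a
    have h4 : Φ (F X) (pos n (i, a)) = F X (pos n (i, a)) :=
      hΦ _ _ fun e x => pos_not_code hR hn (i, a) e x
    rw [hF1] at h4
    exact h4
  rw [h3] at h2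
  rw [hC1]
  show decide (M.out (Φ (F X)) (pairBits (inp n i) h) = some [true]) = _
  have h5 := h1.symm.trans h2
  cases hv : majF k (fun a => X (i, a)) with
  | true => exact decide_eq_true (h5.2 hv)
  | false =>
    refine decide_eq_false fun h6 => ?_
    rw [h5.1 h6] at hv
    cases hv

end

end Pool.Agent.W2helper26.MC
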