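import Pool.Agent.W2helper26.MC.Inst
import Pool.Agent.H620R2.GaugeR.R8
import Pool.Agent.H620R2.Gauge2.Null
import Pool.Agent.H620R2.Gauge.M
import Pool.Agent.H620R2.Gauge.Q

/-!
# The majority language is hard relative to almost all oracles
-/

set_option autoImplicit false

namespace Pool.Agent.W2helper26.MC

open Finset Pool.Agent.NPC Pool.Agent.H620R2.Gauge Pool.Agent.H620R2.Gauge.CC
open Pool.Agent.W2helper86.MD Pool.Agent.H676 H568R2 MeasureTheory
open Pool.Agent.W2helper26.DT (inp length_inp inp_inj inp_head)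
open Pool.Agent.W2helper86.PL.Ev (card_bound exists_short idx_inj idx_lt_of)

theorem majL_congr {A A' : Oracle} {x : List Bool}
    (h : ∀ w : List Bool, w.length = x.length → A (x ++ w) = A' (x ++ w)) :
    x ∈ majL A ↔ x ∈ majL A' := by
  have h1 : cntA A x = cntA A' x := by
    unfold cntA
    congr 1
    ext w
    constructor
    · rintro ⟨h1, h2, h3⟩
      exact ⟨h1, h2, (h w h1) ▸ h3⟩
    · rintro ⟨h1, h2, h3⟩
      exact ⟨h1, h2, (h w h1).symm ▸ h3⟩
  unfold majL
  rw [Set.mem_ofPred_eq, Set.mem_ofPred_eq, h1]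

theorem poly_lev (T : Polynomial ℕ) : ∃ K : ℕ, ∀ n : ℕ, 1 ≤ n → lev (2 * n) (T.eval n) ≤ K := by
  have h : ∀ n : ℕ, 1 ≤ n → T.eval n ≤ T.eval 1 * n ^ T.natDegree := by
    intro n hn
    rw [Polynomial.eval_eq_sum_range, Polynomial.eval_eq_sum_range, Finset.sum_mul]
    refine Finset.sum_le_sum fun i hi => ?_
    rw [one_pow, mul_one]
    exact Nat.mul_le_mul_left _ (Nat.pow_le_pow_right hn
      (Nat.lt_succ_iff.1 (Finset.mem_range.1 hi)))
  refine ⟨T.eval 1 + T.natDegree, fun n hn => lev_le ?_⟩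
  have h1 : T.eval 1 < (2 * n) ^ T.eval 1 := Nat.lt_pow_self (by omega)
  have h2 : n ^ T.natDegree ≤ (2 * n) ^ T.natDegree := Nat.pow_le_pow_left (by omega) _
  have h3 : 0 < (2 * n) ^ T.natDegree := by positivity
  calc T.eval n ≤ T.eval 1 * n ^ T.natDegree := h n hn
    _ ≤ T.eval 1 * (2 * n) ^ T.natDegree := Nat.mul_le_mul_left _ h2
    _ < (2 * n) ^ T.eval 1 * (2 * n) ^ T.natDegree := Nat.mul_lt_mul_of_pos_right h1 h3
    _ = (2 * n) ^ (T.eval 1 + T.natDegree) := by rw [← pow_add]
    _ ≤ (2 * n) ^ (2 ^ (T.eval 1 + T.natDegree)) :=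
      Nat.pow_le_pow_right (by omega) Nat.lt_two_pow_self.le

section

variable {p : ℕ} {R : ℕ → Polynomial ℕ} {Φ : Oracle → Oracle}
  {g : ℕ → Alg × Polynomial ℕ × Option ℕ}

/-- the oracles for which the algorithm with advice decides the majority language -/
def Bad (Φ : Oracle → Oracle) (θ : Alg × Polynomial ℕ) : Set Oracle :=
  {B | ∀ n, ∃ h : List Bool, h.length ≤ θ.2.eval n ∧ ∀ x : List Bool, x.length = n →
    (x ∈ majL (Φ B) ↔ θ.1.out (Φ B) (pairBits x h) = some [true])}

theorem null_bad (hpath : P_path) (hckt : P_ckt) (hdp : P_dp) (hcnt : P_cnt) (hvers : P_vers)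
    (hcomb : P_comb) (hnum : P_num) (hmaj : P_maj) [Fact p.Prime]
    (hR : ∀ e n, n + e + 1 ≤ (R e).eval n)
    (hΦ : ∀ B y, (∀ e x, y ≠ code R e x) → Φ B y = B y)
    (hloc : ∀ (B B' : Oracle) (ℓ : ℕ), (∀ z : List Bool, z.length ≤ ℓ → B z = B' z) →
      ∀ y : List Bool, y.length ≤ ℓ → Φ B y = Φ B' y)
    (hval : ∀ B e x, Φ B (code R e x) = true ↔ Val p (g e).1 (g e).2.1 (g e).2.2 (Φ B) x)
    (hbd : ∀ e (x w π : List Bool), w.length = (g e).2.1.eval x.length →
      Static (g e).1 (pairBits w x) π →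
      (∀ l ∈ lits (g e).1 (pairBits w x) π, l.1.length ^ 2 ≤ (code R e x).length) ∧
      w.length + π.length ≤ (code R e x).length)
    (θ : Alg × Polynomial ℕ) : ranO (Bad Φ θ) = 0 := by
  classical
  obtain ⟨M, q⟩ := θ
  have hp := (Fact.out : p.Prime)
  obtain ⟨b, hb⟩ := (hpath M).2.2
  set Qp : Polynomial ℕ := b.comp (Polynomial.C 2 * Polynomial.X + Polynomial.C 1 + q) +
    Polynomial.C 2 * Polynomial.X with hQp
  have hQe : ∀ n, Qp.eval n = b.eval (2 * n + 1 + q.eval n) + 2 * n := by
    intro n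
    simp only [hQp, Polynomial.eval_add, Polynomial.eval_comp, Polynomial.eval_mul,
      Polynomial.eval_C, Polynomial.eval_X]
  obtain ⟨K₀, hK₀⟩ := poly_lev Qp
  set D : ℕ := 2 * (K₀ + 1) with hD
  have key : ∀ δ : ℝ, 0 < δ → ranO (Bad Φ (M, q)) ≤ ENNReal.ofReal δ := by
    intro δ hδ
    obtain ⟨n, u, hn, hu, hun, hbig, hle⟩ := hnum (Polynomial.C 3 * Qp + Polynomial.C 6)
      (q + Polynomial.C 2) D p 2 δ hδ
    have hTe : (Polynomial.C 3 * Qp + Polynomial.C 6).eval n = 3 * Qp.eval n + 6 := by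
      simp
    have hqe : (q + Polynomial.C 2).eval n = q.eval n + 2 := by simp
    rw [hTe] at hbig
    rw [hqe] at hle
    set Q := Qp.eval n with hQ
    set m := 2 ^ (u - 3) with hm
    have hm8 : 8 * m = 2 ^ u := by
      have : 2 ^ u = 2 ^ 3 * 2 ^ (u - 3) := by rw [← pow_add]; congr 1; omega
      rw [this]; ring
    obtain ⟨k, hk⟩ : ∃ k, 2 * k + 1 = 2 ^ n - 1 := by
      refine ⟨2 ^ (n - 1) - 1, ?_⟩
      have h1 : 2 ^ n = 2 * 2 ^ (n - 1) := by rw [← pow_succ']; congr 1; omega
      have h2 : 2 ≤ 2 ^ (n - 1) := by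
        calc 2 = 2 ^ 1 := by norm_num
          _ ≤ 2 ^ (n - 1) := Nat.pow_le_pow_right (by norm_num) (by omega)
      omega
    have hlen : ∀ x h : List Bool, x.length = n → h.length ≤ q.eval n →
        ∀ π, Static M (pairBits x h) π → π.length ≤ Q ∧
          ∀ l ∈ lits M (pairBits x h) π, l.1.length ≤ Q := by
      intro x h hx hh π hπ
      obtain ⟨h1, h2⟩ := hb _ _ hπ
      have h3 : b.eval (pairBits x h).length ≤ b.eval (2 * n + 1 + q.eval n) := by
        apply eval_mono
        rw [length_pairBits, hx]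
        omega
      have h4 := hQe n
      rw [← hQ] at h4
      exact ⟨by omega, fun l hl => by have := h2 l hl; omega⟩
    have hQn : 2 * n ≤ Q := by
      have h4 := hQe n
      rw [← hQ] at h4
      omega
    set N := 2 ^ (Q + 1) with hN
    have hidx : ∀ y : List Bool, y.length ≤ Q → idx y < N := fun y hy =>
      idx_lt_of (Nat.pow_le_pow_right (by norm_num) (by omega))
    -- the positions
    set φ : Fin (8 * m) × Fin (2 * k + 1) → Fin N :=
      fun i => ⟨idx (pos n i), hidx _ (by rw [length_pos]; exact hQn)⟩ with hφd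
    have hφ : Function.Injective φ := by
      intro i j hij
      exact pos_inj (u := u) hun hm8.le (by omega) (idx_inj (congrArg Fin.val hij))
    let e0 : (Fin N → Bool) ≃ ({x // x ∈ Set.range φ} → Bool) × ({x // ¬ x ∈ Set.range φ} → Bool) :=
      Equiv.piEquivPiSubtypeProd (fun x => x ∈ Set.range φ) (fun _ => Bool)
    let e1 : ({x // x ∈ Set.range φ} → Bool) ≃ (Fin (8 * m) × Fin (2 * k + 1) → Bool) :=
      Equiv.arrowCongr (Equiv.ofInjective φ hφ).symm (Equiv.refl Bool)
    let e : (Fin N → Bool) ≃ (Fin (8 * m) × Fin (2 * k + 1) → Bool) ×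
        ({x // ¬ x ∈ Set.range φ} → Bool) := e0.trans (Equiv.prodCongr e1 (Equiv.refl _))
    have hw1 : ∀ (X : Fin (8 * m) × Fin (2 * k + 1) → Bool)
        (τ : {x // ¬ x ∈ Set.range φ} → Bool) (i : Fin (8 * m) × Fin (2 * k + 1)),
        e.symm (X, τ) (φ i) = X i := by
      intro X τ i
      have h1 : e (e.symm (X, τ)) = (X, τ) := e.apply_symm_apply _
      have h2 : (e (e.symm (X, τ))).1 i = e.symm (X, τ) (φ i) := rfl
      rw [← h2, h1]
    have hw2 : ∀ (X : Fin (8 * m) × Fin (2 * k + 1) → Bool)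
        (τ : {x // ¬ x ∈ Set.range φ} → Bool) (x : Fin N) (hx : ¬ x ∈ Set.range φ),
        e.symm (X, τ) x = τ ⟨x, hx⟩ := by
      intro X τ x hx
      have h1 : e (e.symm (X, τ)) = (X, τ) := e.apply_symm_apply _
      have h2 : (e (e.symm (X, τ))).2 ⟨x, hx⟩ = e.symm (X, τ) x := rfl
      rw [← h2, h1]
    -- one advice string
    have hone : ∀ h : List Bool, h.length ≤ q.eval n →
        (Nat.card {ω : Fin N → Bool // ∀ i : Fin (8 * m), (inp n i ∈ majL (Φ (orc N ω)) ↔
          M.out (Φ (orc N ω)) (pairBits (inp n i) h) = some [true])} : ℝ) ≤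
        (2 * (1 / 2) ^ m) * Fintype.card (Fin N → Bool) := by
      intro h hh
      refine card_bound e _ _ fun τ => ?_
      have h1 := inst hpath hckt (hcomb hdp hcnt hvers) hmaj hR hΦ hloc hval hbd M h (n := n)
        (m := m) (k := k) (Q := Q) (D := D) (ℓ := 3 * Q + 6 + 2 ^ u) (by omega) hk
        (fun i π hπ => hlen _ h (length_inp _ _) hh π hπ)
        (by rw [hm8]; exact Nat.pow_le_pow_right (by norm_num) (by omega)) (by omega)
        (by
          have := hK₀ n (by omega)
          rw [← hQ] at this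
          omega)
        (by
          rw [← pow_add]
          calc 2 ^ (3 * Q + 6 + m) ≤ 2 ^ (3 * Q + 6 + 2 ^ u) :=
                Nat.pow_le_pow_right (by norm_num) (by omega)
            _ ≤ p ^ (3 * Q + 6 + 2 ^ u) := Nat.pow_le_pow_left hp.two_le _)
        (by omega) (by rw [hk]; exact hbig)
        (fun X => orc N (e.symm (X, τ)))
        (by
          intro X i
          have h2 : idx (pos n i) < N := hidx _ (by rw [length_pos]; exact hQn)
          show orc N (e.symm (X, τ)) (pos n i) = X i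
          unfold orc
          rw [dif_pos h2]
          exact hw1 X τ i)
        (by
          intro X X' y hy
          show orc N (e.symm (X, τ)) y = orc N (e.symm (X', τ)) y
          unfold orc
          by_cases h2 : idx y < N
          · rw [dif_pos h2, dif_pos h2]
            have h3 : ¬ (⟨idx y, h2⟩ : Fin N) ∈ Set.range φ := by
              rintro ⟨i, hi⟩
              exact hy i (idx_inj (congrArg Fin.val hi)).symm
            rw [hw2 _ _ _ h3, hw2 _ _ _ h3]
          · rw [dif_neg h2, dif_neg h2])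
      rw [Nat.card_eq_fintype_card, Fintype.card_subtype]
      have h2 : (Fintype.card (Fin (8 * m) × Fin (2 * k + 1) → Bool) : ℝ) =
          2 ^ (8 * m * (2 * k + 1)) := by
        rw [Fintype.card_fun, Fintype.card_bool, Fintype.card_prod, Fintype.card_fin,
          Fintype.card_fin]
        push_cast
        rfl
      rw [h2]
      have h3 : (((univ.filter (fun X : Fin (8 * m) × Fin (2 * k + 1) → Bool =>
          ∀ i : Fin (8 * m), (inp n i ∈ majL (Φ (orc N (e.symm (X, τ)))) ↔
            M.out (Φ (orc N (e.symm (X, τ)))) (pairBits (inp n i) h) = some [true]))).card : ℕ) : ℝ) *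
          2 ^ m ≤ 2 * 2 ^ (8 * m * (2 * k + 1)) := by exact_mod_cast h1
      have h4 : (0 : ℝ) < 2 ^ m := by positivity
      rw [one_div, inv_pow]
      rw [show (2 : ℝ) * (2 ^ m)⁻¹ * 2 ^ (8 * m * (2 * k + 1)) =
        (2 * 2 ^ (8 * m * (2 * k + 1))) / 2 ^ m by field_simp]
      rw [le_div_iff₀ h4]
      exact h3
    -- the event
    obtain ⟨Sh, hSh1, hSh2⟩ := exists_short (q.eval n)
    set E : (Fin N → Bool) → Prop := fun ω => ∃ h : List Bool, h.length ≤ q.eval n ∧
      ∀ i : Fin (8 * m), (inp n i ∈ majL (Φ (orc N ω)) ↔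
          M.out (Φ (orc N ω)) (pairBits (inp n i) h) = some [true]) with hE
    have hall : (Nat.card {ω : Fin N → Bool // E ω} : ℝ) ≤
        2 ^ (q.eval n + 1) * ((2 * (1 / 2) ^ m) * Fintype.card (Fin N → Bool)) := by
      have h1 : Nat.card {ω : Fin N → Bool // E ω} ≤
          ∑ a : {a // a ∈ Sh.filter (fun a => a.length ≤ q.eval n)}, Nat.card {ω : Fin N → Bool //
            ∀ i : Fin (8 * m), (inp n i ∈ majL (Φ (orc N ω)) ↔
              M.out (Φ (orc N ω)) (pairBits (inp n i) a.1) = some [true])} := by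
        rw [← Nat.card_sigma]
        refine Nat.card_le_card_of_injective (fun ω => (⟨⟨ω.2.choose,
          Finset.mem_filter.2 ⟨hSh2 _ ω.2.choose_spec.1, ω.2.choose_spec.1⟩⟩, ω.1,
          ω.2.choose_spec.2⟩ :
          Σ a : {a // a ∈ Sh.filter (fun a => a.length ≤ q.eval n)}, {ω : Fin N → Bool //
            ∀ i : Fin (8 * m), (inp n i ∈ majL (Φ (orc N ω)) ↔
              M.out (Φ (orc N ω)) (pairBits (inp n i) a.1) = some [true])})) ?_
        intro ω ω' he
        apply Subtype.ext
        exact congrArg (fun z => z.2.1) he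
      calc (Nat.card {ω : Fin N → Bool // E ω} : ℝ) ≤
            ∑ a : {a // a ∈ Sh.filter (fun a => a.length ≤ q.eval n)},
            (Nat.card {ω : Fin N → Bool //
            ∀ i : Fin (8 * m), (inp n i ∈ majL (Φ (orc N ω)) ↔
              M.out (Φ (orc N ω)) (pairBits (inp n i) a.1) = some [true])} : ℝ) := by
              exact_mod_cast h1
        _ ≤ ∑ a : {a // a ∈ Sh.filter (fun a => a.length ≤ q.eval n)},
            ((2 * (1 / 2) ^ m) * (Fintype.card (Fin N → Bool) : ℝ)) :=
          Finset.sum_le_sum fun a _ => hone a.1 (Finset.mem_filter.1 a.2).2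
        _ = ((Sh.filter (fun a => a.length ≤ q.eval n)).card : ℝ) *
            ((2 * (1 / 2) ^ m) * Fintype.card (Fin N → Bool)) := by
          rw [Finset.sum_const, nsmul_eq_mul, Finset.card_univ, Fintype.card_coe]
        _ ≤ _ := by
          apply mul_le_mul_of_nonneg_right _ (by positivity)
          exact_mod_cast (Finset.card_filter_le _ _).trans hSh1
    obtain ⟨S, h1, h2⟩ := cover_of_event (N := N) E (Bad Φ (M, q)) (by
      intro B hB
      obtain ⟨h, hh, hx⟩ := hB n
      have hBB : ∀ y : List Bool, y.length ≤ Q → Φ B y = Φ (orc N (pre N B)) y := by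
        refine hloc _ _ Q fun z hz => ?_
        have h3 := hidx z hz
        unfold orc
        rw [dif_pos h3]
        show B z = B (str (idx z))
        rw [str_idx]
      refine ⟨h, hh, fun i => ?_⟩
      have h3 : inp n i ∈ majL (Φ (orc N (pre N B))) ↔ inp n i ∈ majL (Φ B) := by
        apply majL_congr
        intro w hw
        rw [length_inp] at hw
        refine (hBB _ ?_).symm
        rw [List.length_append, length_inp, hw]
        omega
      have h4 : M.out (Φ (orc N (pre N B))) (pairBits (inp n i) h) = some [true] ↔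
          M.out (Φ B) (pairBits (inp n i) h) = some [true] := by
        rw [(hpath M).1, (hpath M).1]
        refine exists_congr fun π => and_congr_right fun hS => forall_congr' fun l =>
          forall_congr' fun hl => ?_
        rw [hBB l.1 ((hlen _ h (length_inp _ _) hh π hS).2 l hl)]
      rw [h3, h4]
      exact hx _ (length_inp _ _)) (fun _ => 0) δ (by
      refine le_trans ?_ hle
      have h1 := card_of_Ex E
      have h2 : (Fintype.card (Fin N → Bool) : ℝ) = 2 ^ (N : ℝ) := by
        rw [Fintype.card_fun, Fintype.card_bool, Fintype.card_fin, Real.rpow_natCast]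
        push_cast
        rfl
      rw [Nat.card_eq_fintype_card, Fintype.card_subtype, h2] at hall
      rw [← h1, Real.rpow_zero, mul_one]
      have h3 : (2 : ℝ) ^ (N : ℝ) * 2 ^ (-(N : ℝ)) = 1 := by
        rw [← Real.rpow_add (by norm_num), add_neg_cancel, Real.rpow_zero]
      calc _ ≤ (2 ^ (q.eval n + 1) * ((2 * (1 / 2 : ℝ) ^ m) * (2 : ℝ) ^ (N : ℝ))) *
            (2 : ℝ) ^ (-(N : ℝ)) := by
            refine mul_le_mul_of_nonneg_right ?_ (by positivity)
            refine le_trans (le_of_eq ?_) hall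
            congr 2
        _ = 2 ^ (q.eval n + 2) * (1 / 2 : ℝ) ^ m * ((2 : ℝ) ^ (N : ℝ) * 2 ^ (-(N : ℝ))) := by ring
        _ = 2 ^ (q.eval n + 2) * (1 / 2 : ℝ) ^ m := by rw [h3, mul_one])
    have hsub : Bad Φ (M, q) ⊆ ⋃ w : S, {B | Extends B w.1} := by
      intro B hB
      obtain ⟨w, hw, hE⟩ := h1 B hB
      exact Set.mem_iUnion.2 ⟨⟨w, hw⟩, hE⟩
    refine (measure_mono hsub).trans ((measure_iUnion_le _).trans (le_trans ?_ h2))
    refine ENNReal.tsum_le_tsum fun w => ?_
    refine (ranO_extends (fun B => B) ∅ (fun B y _ => rfl) w.1).trans ?_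
    simp
  refine le_antisymm ?_ zero_le
  refine ENNReal.le_of_forall_pos_le_add fun ε hε _ => ?_
  rw [zero_add]
  refine (key ε hε).trans (le_of_eq ENNReal.ofReal_coe_nnreal)

end

end Pool.Agent.W2helper26.MC
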