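import Pool.Agent.W2helper86.MD.Core
import Pool.Agent.W2helper86.MD.Hard
import Pool.Agent.W2helper86.MD.Tail
import Pool.Agent.W2helper57.PPH.Defs
import Pool.Agent.H620R2.Gauge.A1
import Pool.Agent.H620R2.Gauge.C

/-!
# Project MC: an oracle with `P = PH = Mod_p P`, but `PP` not in `P/poly`. The pieces: exact statements

Every definition `P_...` below is one piece; prove `theorem p_... : P_...` in a file of your own,
`Pool/Agent/W2<seat>/MC/<name>.lean`.
-/

set_option autoImplicit false

namespace Pool.Agent.W2helper26.MC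

open Finset Pool.Agent.NPC Pool.Agent.H620R2.Gauge Pool.Agent.W2helper86.MD

/-! ### The class -/

/-- The smallest class of languages which contains `P` relative to `A` and is closed under
complement, polynomially bounded existential quantification and polynomially bounded counting
modulo `p`. It contains the polynomial hierarchy and `Mod_p P` relative to `A`. -/
inductive MPH (p : ℕ) (A : Oracle) : Set (List Bool) → Prop
  | base {L : Set (List Bool)} : IsP A L → MPH p A L
  | compl {L : Set (List Bool)} : MPH p A L → MPH p A Lᶜ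
  | ex {L : Set (List Bool)} (q : Polynomial ℕ) : MPH p A L →
      MPH p A {x | ∃ w : List Bool, w.length = q.eval x.length ∧ pairBits w x ∈ L}
  | mod {L : Set (List Bool)} (q : Polynomial ℕ) (a : ℕ) : MPH p A L →
      MPH p A {x | {w : List Bool | w.length = q.eval x.length ∧ pairBits w x ∈ L}.ncard % p = a}

/-! ### PATH: the accepting computations of an oracle algorithm -/

/-- The string `π` of answers leads to acceptance, if the answers are right; a static
condition, which does not depend on the oracle. -/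
def Static (M : Alg) (x π : List Bool) : Prop :=
  π.length < M.p.eval x.length ∧ M.D (pairBits x π) = [true, true] ∧
    ∀ j < π.length, (M.D (pairBits x (π.take j))).head? = some false

/-- the questions, with the answers -/
def lits (M : Alg) (x π : List Bool) : Finset (List Bool × Bool) :=
  (range π.length).image fun j => ((M.D (pairBits x (π.take j))).tail, π.getD j false)

/-- Piece PATH. Unfold `Alg.out`, `Alg.run` (file `H620R2/Gauge/Defs.lean`); generalize over the
answers received so far. For the bound: `D` is polynomial-time computable, compare `act_length` in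
`H620R2/Gauge/C.lean` (`exists_len...`), so its output has polynomially bounded length; all inputs
`pairBits x (π.take j)` have length at most `2 |x| + 1 + p(|x|)`. -/
def P_path : Prop := ∀ M : Alg,
  (∀ (A : Oracle) (x : List Bool), M.out A x = some [true] ↔
    ∃ π, Static M x π ∧ ∀ l ∈ lits M x π, A l.1 = l.2) ∧
  (∀ (A : Oracle) (x π π' : List Bool), Static M x π → (∀ l ∈ lits M x π, A l.1 = l.2) →
    Static M x π' → (∀ l ∈ lits M x π', A l.1 = l.2) → π = π') ∧
  ∃ b : Polynomial ℕ, ∀ x π, Static M x π → π.length ≤ b.eval x.length ∧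
    ∀ l ∈ lits M x π, l.1.length ≤ b.eval x.length

/-! ### The coding -/

/-- what is coded: the existential quantifier (`none`) or counting modulo `p` (`some a`), with a
string of length `q |x|`, in front of acceptance by `M` -/
def Val (p : ℕ) (M : Alg) (q : Polynomial ℕ) (κ : Option ℕ) (A : Oracle) (x : List Bool) : Prop :=
  match κ with
  | none => ∃ w : List Bool, w.length = q.eval x.length ∧ M.out A (pairBits w x) = some [true]
  | some a => {w : List Bool | w.length = q.eval x.length ∧
      M.out A (pairBits w x) = some [true]}.ncard % p = a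

/-- Piece CLO: the oracle knows the values; by induction on `MPH`, everything is in `P`.
(`V` of an `IsP` language may have other outputs than `[true]`, `[false]`; the code strings are
polynomial-time computable, `poly_code` in `H620R2/Gauge`, and one asks for the code string, see the
end of `exists_coding_sparse` in `W2helper26/DT/COD.lean`; complement: see `IsFP.comp`.) -/
def P_clo : Prop := ∀ (p : ℕ) (R : ℕ → Polynomial ℕ) (g : ℕ → Alg × Polynomial ℕ × Option ℕ),
  Function.Surjective g → ∀ A : Oracle,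
  (∀ e x, A (code R e x) = true ↔ Val p (g e).1 (g e).2.1 (g e).2.2 A x) →
  ∀ L, MPH p A L → IsP A L

/-! ### CKT: from systems to circuits -/

/-- Piece CKT. Nodes `Y ⊕ (Σ v, {j // j ∈ J v})`; the node `v` has depth `2 * dep v`, the node `(v, j)`
(the conjunction of the literals `t v j`) has depth `2 * dep v - 1`. -/
def P_ckt : Prop := ∀ (p : ℕ) (I Y ι : Type) [Fintype Y] [DecidableEq Y] [DecidableEq ι]
  (dep : Y → ℕ) (val : Y → (I → Bool) → Bool) (J : Y → Finset ι)
  (t : Y → ι → Finset (Y × Bool)),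
  (∀ v, (∃ A : Finset I, A.card ≤ 1 ∧ ∀ x y, (∀ i ∈ A, x i = y i) → val v x = val v y) ∨
    ((∀ j ∈ J v, ∀ l ∈ t v j, dep l.1 < dep v) ∧
      ((∀ x, val v x = true ↔ ∃ j ∈ J v, ∀ l ∈ t v j, val l.1 x = l.2) ∨
      (∃ a : ZMod p, ∀ x, val v x = true ↔
        (((J v).filter (fun j => ∀ l ∈ t v j, val l.1 x = l.2)).card : ZMod p) = a)))) →
  ∃ (C : Ckt p I) (o : Y → C.Node), (∀ v x, C.val (o v) x = val v x) ∧
    (∀ v, C.depth (o v) ≤ 2 * dep v) ∧ Nat.card C.Node ≤ Fintype.card Y + ∑ v, (J v).card

/-! ### Majority of several blocks -/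

/-- `H` is versatile: every function is a combination of `1` and `H` with coefficients of degree at
most `k` -/
def Vers (p k : ℕ) [Fact p.Prime] (H : (Fin (2 * k + 1) → Bool) → Bool) : Prop :=
  ∀ f : (Fin (2 * k + 1) → Bool) → ZMod p, ∃ g₁ g₂ : (Fin (2 * k + 1) → Bool) → ZMod p,
    Deg k g₁ ∧ Deg k g₂ ∧ ∀ x, f x = g₁ x + g₂ x * bv (ZMod p) (H x)

/-- Piece VERS. For every `f` some polynomial of degree `≤ k` agrees with `f` on the points with at most
`k` ones: induction on `j`, the points with less than `j` ones; add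
`∑_{|T| = j} (f 1_T - g 1_T) mon T`. By symmetry (`x ↦ ¬ x`) some polynomial of degree `≤ k` agrees with
`f` on the points with at least `k + 1` ones. -/
def P_vers : Prop := ∀ (p k : ℕ) [Fact p.Prime], Vers p k (majF k)

/-- the excess of a set of variables over `k` in each block -/
def exc (k : ℕ) {M : ℕ} (T : Finset (Fin M × Fin (2 * k + 1))) : ℕ :=
  ∑ i, ((T.filter (fun q => q.1 = i)).card - k)

/-- Piece DP. Let `X` be the set on the left. Every function on `X`, e.g. the indicator of a point
`a`, is `∏_i (g₁ᵢ + g₂ᵢ P_i)` on `X`, where `g₁ᵢ`, `g₂ᵢ` have degree `≤ k` in the variables of block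
`i` only. Expand: products of a function of degree `≤ k` in each block with a polynomial of degree
`≤ M Δ` are in the span of the monomials `mon T` with `exc k T ≤ M Δ`
(`mon T * mon S = mon (T ∪ S)`, `exc (T ∪ S) ≤ |S|` if `T` has at most `k` elements in each block).
So the restriction of this span to `X` is everything; compare dimensions. -/
def P_dp : Prop := ∀ (p k M Δ : ℕ) [Fact p.Prime] (H : (Fin (2 * k + 1) → Bool) → Bool),
  Vers p k H → ∀ P : Fin M → (Fin M × Fin (2 * k + 1) → Bool) → ZMod p, (∀ i, Deg Δ (P i)) →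
  (univ.filter (fun x : Fin M × Fin (2 * k + 1) → Bool =>
    ∀ i, P i x = bv (ZMod p) (H (fun a => x (i, a))))).card ≤
  (univ.filter (fun T : Finset (Fin M × Fin (2 * k + 1)) => exc k T ≤ M * Δ)).card

/-- Piece CNT. Put `φ(S) = 1` if `|S| ≤ k + 8 Δ` and `1/8` otherwise (`S` a set of variables of one
block). At most `m` blocks have more than `k + 8 Δ` elements in `T`, hence
`1 ≤ 8^m ∏_i φ(T_i)`, and the number of the `T` is at most `8^m (∑_S φ(S))^(8m)`. Since
`C(2k+1, k) ≤ 2 * centralBinom k` and `(2k+1) centralBinom(k)^2 ≤ 16^k` (`central_bound`,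
`choose_bound` in `W2helper86/MD/Tail.lean`), `#{S : |S| ≤ k + 8 Δ} ≤ (5/8) 2^(2k+1)`, so
`∑_S φ(S) ≤ (43/64) 2^(2k+1)`, and `8 (43/64)^8 ≤ 1/2`. -/
def P_cnt : Prop := ∀ k m Δ : ℕ, 4096 * Δ ^ 2 ≤ 2 * k + 1 →
  (univ.filter (fun T : Finset (Fin (8 * m) × Fin (2 * k + 1)) =>
    exc k T ≤ 8 * m * Δ)).card * 2 ^ m ≤ 2 ^ (8 * m * (2 * k + 1))

/-- Piece COMB (use `P_dp`, `P_cnt`, `P_vers` as hypotheses). `approx` in `W2helper86/MD/RS.lean`
with `μ = 1`: outside a set `Bad` with `|Bad| p^ℓ ≤ s 2^N` the nodes `o i` are given by polynomials of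
degree `≤ (ℓ (p - 1)) ^ D`. -/
def P_comb : Prop := P_dp → P_cnt → P_vers →
  ∀ (p k m D ℓ s : ℕ) [Fact p.Prime] (C : Ckt p (Fin (8 * m) × Fin (2 * k + 1)))
  (o : Fin (8 * m) → C.Node), Nat.card C.Node ≤ s → 1 ≤ s → (∀ i, C.depth (o i) ≤ D) → 1 ≤ ℓ →
  s * 2 ^ m ≤ p ^ ℓ → 4096 * ((ℓ * (p - 1)) ^ D) ^ 2 ≤ 2 * k + 1 →
  (univ.filter (fun x : Fin (8 * m) × Fin (2 * k + 1) → Bool =>
    ∀ i, C.val (o i) x = majF k (fun a => x (i, a)))).card * 2 ^ m ≤
  2 * 2 ^ (8 * m * (2 * k + 1))

/-! ### NUM -/

/-- Piece NUM. Take `u = n / (8 (D + 1))`, `n` large. -/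
def P_num : Prop := ∀ (T Q : Polynomial ℕ) (D p n₀ : ℕ) (δ : ℝ), 0 < δ → ∃ n u : ℕ,
  n₀ ≤ n ∧ 3 ≤ u ∧ u + 2 ≤ n ∧
  4096 * (((T.eval n + 2 ^ u) * (p - 1)) ^ D) ^ 2 ≤ 2 ^ n - 1 ∧
  2 ^ (Q.eval n) * (1 / 2 : ℝ) ^ (2 ^ (u - 3)) ≤ δ

/-! ### MAJ: the language in `PP` -/

/-- the number of the strings `w ≠ 1 ... 1` of the length of `x` with `A (x w) = 1` -/
noncomputable def cntA (A : Oracle) (x : List Bool) : ℕ :=
  {w : List Bool | w.length = x.length ∧ w ≠ List.replicate x.length true ∧
    A (x ++ w) = true}.ncard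

/-- the majority language -/
def majL (A : Oracle) : Set (List Bool) := {x | 1 ≤ x.length ∧ 2 ^ (x.length - 1) ≤ cntA A x}

/-- Piece PP. Random string `w` of length `n + 1`, `n = |x| ≥ 1`: if `w.take n = 1 ... 1` the output is
`[w.getD n false]`, otherwise it is `[A (x ++ w.take n)]`. The output `[true]` has probability
`(2 cntA + 1) / 2^(n+1)`. (`IsPP`, `outPr` in `W2helper57/PPH/Defs.lean`; the tools are in
`W2helper57/PPH/Lang.lean`.) -/
def P_pp : Prop := ∀ A : Oracle, IsPP A (majL A)

/-- Piece MAJ. `bitsOf` is in `H620R2/Gauge/Base.lean` (all the strings of length `n` are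
`bitsOf n a`, `a < 2 ^ n`, and `bitsOf n (2 ^ n - 1) = 1 ... 1`). -/
def P_maj : Prop := ∀ (A : Oracle) (x : List Bool) (n k : ℕ), x.length = n → 1 ≤ n →
  2 * k + 1 = 2 ^ n - 1 → (x ∈ majL A ↔ majF k (fun a => A (x ++ bitsOf n a)) = true)

end Pool.Agent.W2helper26.MC
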